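import Pool.Agent.Run7.h141.ND1.Iface

/-!
# Piece MON of the project ND1 of helper141 on `MP_bd3523_gt` (helper56)

A continuous injective map of an interval into a Jordan curve is locally `γ ∘ s` with `s` monotone
or antitone.
-/

set_option autoImplicit false

namespace Run7.h56.ND1

open Set Filter Topology Run7.h141.ND1 R789.C1

/-- **Piece MON** -/
theorem t_MON : S_MON := by
  intro X _ _ γ c a b hγ hp hi hc hci hr x₀ hx₀
  have hP : Function.Periodic γ 1 := hp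
  obtain ⟨s₀, hs₀⟩ := hr x₀ hx₀
  have hinj : ∀ u ∈ Icc (s₀ - 1 / 4) (s₀ + 1 / 4), ∀ v ∈ Icc (s₀ - 1 / 4) (s₀ + 1 / 4),
      γ u = γ v → u = v := by
    intro u hu v hv h
    rcases lt_trichotomy u v with h1 | h1 | h1
    · exact absurd h (inj_of_injOn hp hi u v h1 (by linarith [hu.1, hv.2]))
    · exact h1
    · exact absurd h.symm (inj_of_injOn hp hi v u h1 (by linarith [hv.1, hu.2]))
  -- the part of the curve near `s₀`
  let g : Icc (s₀ - 1 / 4) (s₀ + 1 / 4) → X := fun u => γ u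
  have hg : Continuous g := hγ.comp continuous_subtype_val
  have hgi : Function.Injective g := fun u v h => Subtype.ext (hinj u u.2 v v.2 h)
  have hge : Topology.IsClosedEmbedding g := hg.isClosedEmbedding hgi
  -- the rest of the curve
  have hK : IsClosed (γ '' Icc (s₀ + 1 / 4) (s₀ + 3 / 4)) :=
    (isCompact_Icc.image hγ).isClosed
  have hx₀K : c x₀ ∈ (γ '' Icc (s₀ + 1 / 4) (s₀ + 3 / 4))ᶜ := by
    rintro ⟨t, ht, h⟩
    exact inj_of_injOn hp hi s₀ t (by linarith [ht.1]) (by linarith [ht.2]) (hs₀.trans h.symm)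
  have hnb : ∀ᶠ x in 𝓝 x₀, x ∈ Ioo a b ∧ c x ∈ (γ '' Icc (s₀ + 1 / 4) (s₀ + 3 / 4))ᶜ := by
    have h1 : Ioo a b ∈ 𝓝 x₀ := isOpen_Ioo.mem_nhds hx₀
    have h2 : ContinuousAt c x₀ := hc.continuousAt h1
    filter_upwards [h1, h2.preimage_mem_nhds (hK.isOpen_compl.mem_nhds hx₀K)] with x h3 h4
    exact ⟨h3, h4⟩
  obtain ⟨ε, hε, hball⟩ := Metric.eventually_nhds_iff.1 hnb
  have hJ : ∀ x ∈ Icc (x₀ - ε / 2) (x₀ + ε / 2), x ∈ Ioo a b ∧
      c x ∈ (γ '' Icc (s₀ + 1 / 4) (s₀ + 3 / 4))ᶜ := by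
    intro x hx
    refine hball ?_
    rw [Real.dist_eq, abs_lt]
    constructor <;> linarith [hx.1, hx.2]
  have hex : ∀ x ∈ Icc (x₀ - ε / 2) (x₀ + ε / 2), ∃ u ∈ Icc (s₀ - 1 / 4) (s₀ + 1 / 4),
      γ u = c x := by
    intro x hx
    obtain ⟨h1, h2⟩ := hJ x hx
    obtain ⟨t, ht⟩ := hr x h1
    obtain ⟨y, hy, hty⟩ := hP.exists_mem_Ico one_pos t (s₀ - 1 / 4)
    have h3 : γ y = c x := by rw [← hty, ht]
    refine ⟨y, ⟨hy.1, ?_⟩, h3⟩
    by_contra h4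
    exact h2 ⟨y, ⟨by linarith, by linarith [hy.2]⟩, h3⟩
  set s : ℝ → ℝ := fun x => Function.invFunOn γ (Icc (s₀ - 1 / 4) (s₀ + 1 / 4)) (c x) with hs
  have hs1 : ∀ x ∈ Icc (x₀ - ε / 2) (x₀ + ε / 2), s x ∈ Icc (s₀ - 1 / 4) (s₀ + 1 / 4) :=
    fun x hx => Function.invFunOn_mem (hex x hx)
  have hs2 : ∀ x ∈ Icc (x₀ - ε / 2) (x₀ + ε / 2), γ (s x) = c x :=
    fun x hx => Function.invFunOn_eq (hex x hx)
  have hsc : ContinuousOn s (Icc (x₀ - ε / 2) (x₀ + ε / 2)) := by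
    rw [continuousOn_iff_continuous_domRestrict]
    let l : Icc (x₀ - ε / 2) (x₀ + ε / 2) → Icc (s₀ - 1 / 4) (s₀ + 1 / 4) :=
      fun x => ⟨s x, hs1 x x.2⟩
    have hl : Continuous l := by
      rw [hge.isInducing.continuous_iff]
      have h1 : g ∘ l = (Icc (x₀ - ε / 2) (x₀ + ε / 2)).domRestrict c := by
        funext x
        exact hs2 x x.2
      rw [h1]
      exact (hc.mono fun x hx => (hJ x hx).1).domRestrict
    exact continuous_subtype_val.comp hl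
  have hsi : InjOn s (Icc (x₀ - ε / 2) (x₀ + ε / 2)) := by
    intro x hx y hy h
    refine hci (hJ x hx).1 (hJ y hy).1 ?_
    rw [← hs2 x hx, ← hs2 y hy, h]
  have hsub : Ioo (x₀ - ε / 2) (x₀ + ε / 2) ⊆ Icc (x₀ - ε / 2) (x₀ + ε / 2) := Ioo_subset_Icc_self
  refine ⟨ε / 2, by positivity, s, ?_, hsc.mono hsub, fun x hx => (hs2 x (hsub hx)).symm⟩
  rcases hsc.strictMonoOn_of_injOn_Icc' (by linarith) hsi with h | h
  · exact Or.inl (h.monotoneOn.mono hsub)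
  · exact Or.inr (h.antitoneOn.mono hsub)

end Run7.h56.ND1
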